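import Pool.Agent.helper67.DL.SpecG

/-! # Project dl, module HT: transfer to the symmetric form -/

namespace Pool.Agent.DL

open Matrix Complex
open scoped ComplexOrder Manifold ContDiff

section
variable {X : Type} [TopologicalSpace X] [ChartedSpace ℂ X]

theorem HT_mul (C : Cov X) (q₂ : Fam X) (c d : ℂ) (i : C.ι) (x : X) :
    uni C q₂ c i x * uni C q₂ d i x = uni C q₂ (c + d) i x := by
  unfold uni
  ext a b
  fin_cases a <;> fin_cases b <;> simp [Matrix.mul_apply, Fin.sum_univ_three] <;> ring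

theorem HT_zero (C : Cov X) (q₂ : Fam X) (i : C.ι) (x : X) : uni C q₂ 0 i x = 1 := by
  unfold uni
  ext a b
  fin_cases a <;> fin_cases b <;> simp

theorem HT_inv (C : Cov X) (q₂ : Fam X) (i : C.ι) (x : X) :
    (uni C q₂ (-1) i x)⁻¹ = uni C q₂ 1 i x := by
  apply Matrix.inv_eq_right_inv
  rw [HT_mul, neg_add_cancel, HT_zero]

theorem HT_det (C : Cov X) (q₂ : Fam X) (c : ℂ) (i : C.ι) (x : X) : (uni C q₂ c i x).det = 1 := by
  unfold uni
  rw [Matrix.det_fin_three]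
  simp

theorem HT_A (C : Cov X) (q₂ q₃ : Fam X) (i : C.ι) (x : X) :
    (uni C q₂ (-1) i x)⁻¹ * (hitchin3 C q₂ q₃).A i x * uni C q₂ (-1) i x =
      (hitS C q₂ q₃).A i x := by
  rw [HT_inv]
  unfold uni hitchin3 hitS
  ext a b
  fin_cases a <;> fin_cases b <;> simp [Matrix.mul_apply, Fin.sum_univ_three] <;> ring

theorem HT_g (C : Cov X) (hC : C.Valid) (q₂ q₃ : Fam X) (i j : C.ι) (x : X)
    (hx : x ∈ C.U i ∩ C.U j) :
    (hitchin3 C q₂ q₃).g i j x * uni C q₂ (-1) j x = uni C q₂ (-1) i x * (hitchin3 C q₂ q₃).g i j x := by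
  have hi : C.η i (chartAt ℂ x) x ≠ 0 := hC.2.2.2 i x hx.1
  have hj : C.η j (chartAt ℂ x) x ≠ 0 := hC.2.2.2 j x hx.2
  unfold uni hitchin3
  ext a b
  fin_cases a <;> fin_cases b <;>
    simp [Matrix.mul_apply, Fin.sum_univ_three, Cov.rat, quo]
  field_simp

theorem HT_nn {n : ℕ} (H P G : Matrix (Fin n) (Fin n) ℂ) (hG : IsUnit G.det) :
    nn (Gᴴ * H * G) (G⁻¹ * P * G) = nn H P := by
  have h1 : G * G⁻¹ = 1 := Matrix.mul_nonsing_inv G hG
  have h2 : G⁻¹ * G = 1 := Matrix.nonsing_inv_mul G hG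
  have h3 : (G⁻¹)ᴴ * Gᴴ = 1 := by
    rw [← Matrix.conjTranspose_mul, h1, Matrix.conjTranspose_one]
  have h4 : (Gᴴ)⁻¹ = (G⁻¹)ᴴ := (Matrix.conjTranspose_nonsing_inv G).symm
  unfold nn nn2
  congr 1
  rw [Matrix.mul_inv_rev, Matrix.mul_inv_rev, h4]
  rw [Matrix.conjTranspose_mul, Matrix.conjTranspose_mul]
  have e : G⁻¹ * (H⁻¹ * (G⁻¹)ᴴ) * (Gᴴ * (Pᴴ * (G⁻¹)ᴴ)) * (Gᴴ * H * G) * (G⁻¹ * P * G) =
      G⁻¹ * (H⁻¹ * Pᴴ * H * P * G) := by
    calc G⁻¹ * (H⁻¹ * (G⁻¹)ᴴ) * (Gᴴ * (Pᴴ * (G⁻¹)ᴴ)) * (Gᴴ * H * G) * (G⁻¹ * P * G)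
        = G⁻¹ * H⁻¹ * ((G⁻¹)ᴴ * Gᴴ) * Pᴴ * ((G⁻¹)ᴴ * Gᴴ) * H * (G * G⁻¹) * P * G := by
          simp only [Matrix.mul_assoc]
      _ = G⁻¹ * (H⁻¹ * Pᴴ * H * P * G) := by
          rw [h3, h1]
          simp only [Matrix.mul_assoc, Matrix.mul_one, Matrix.one_mul]
  rw [e, Matrix.trace_mul_comm, Matrix.mul_assoc, h1, Matrix.mul_one]

end

/-- HT -/
theorem HT (hGA : GA_stmt) (hGE : GE_stmt) : HT_stmt := by
  intro X _ _ C q₂ q₃ hC hq2 hq3 H hH
  have hdet : ∀ i x, IsUnit (uni C q₂ (-1) i x).det := fun i x => by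
    rw [HT_det]
    exact isUnit_one
  refine ⟨⟨⟨?_, ?_⟩, ?_⟩, ?_⟩
  · intro i j x hx
    have h1 := hH.1.glue i j x hx
    have h2 := HT_g C hC q₂ q₃ i j x hx
    show (uni C q₂ (-1) j x)ᴴ * H j x * uni C q₂ (-1) j x =
      ((hitchin3 C q₂ q₃).g i j x)ᴴ * ((uni C q₂ (-1) i x)ᴴ * H i x * uni C q₂ (-1) i x) *
        (hitchin3 C q₂ q₃).g i j x
    rw [h1]
    calc (uni C q₂ (-1) j x)ᴴ * (((hitchin3 C q₂ q₃).g i j x)ᴴ * H i x * (hitchin3 C q₂ q₃).g i j x) *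
          uni C q₂ (-1) j x
        = ((hitchin3 C q₂ q₃).g i j x * uni C q₂ (-1) j x)ᴴ * H i x *
            ((hitchin3 C q₂ q₃).g i j x * uni C q₂ (-1) j x) := by
          rw [Matrix.conjTranspose_mul]
          simp only [Matrix.mul_assoc]
      _ = _ := by
          rw [h2, Matrix.conjTranspose_mul]
          simp only [Matrix.mul_assoc]
  · intro i e he
    have hopen : IsOpen (e.target ∩ e.symm ⁻¹' C.U i) := e.symm.isOpen_inter_preimage (hC.1 i)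
    have hquo : HoloOn (quo q₂ (C.η i) 2) (C.U i ∩ Set.univ) :=
      ((hGA X (C.U i) (C.η i) (hC.2.2.1 i) (hC.2.2.2 i)).2.2 2 q₂ Set.univ (hC.1 i) isOpen_univ
        hq2).1
    have hquo' : DifferentiableOn ℂ (fun z => quo q₂ (C.η i) 2 (e.symm z))
        (e.target ∩ e.symm ⁻¹' C.U i) := by
      have := hquo e he
      rwa [Set.inter_univ] at this
    have hHM : HM (e.target ∩ e.symm ⁻¹' C.U i) (fun z => uni C q₂ (-1) i (e.symm z)) := by
      intro a b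
      unfold uni
      fin_cases a <;> fin_cases b <;> simp
      exact hquo'.div_const 2
    have h1 := (hGE 3 (e.target ∩ e.symm ⁻¹' C.U i) (fun z => (hitchin3 C q₂ q₃).A i (e.symm z))
      (fun z => H i (e.symm z)) (fun z => uni C q₂ (-1) i (e.symm z))
      (fun z => ‖C.η i e (e.symm z)‖ ^ 2) hopen (hH.1.loc i e he) hHM (fun z _ => hdet i _)).1
    have e1 : (fun z => (uni C q₂ (-1) i (e.symm z))⁻¹ * (hitchin3 C q₂ q₃).A i (e.symm z) *
        uni C q₂ (-1) i (e.symm z)) = fun z => (hitS C q₂ q₃).A i (e.symm z) := by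
      funext z
      exact HT_A C q₂ q₃ i (e.symm z)
    rw [e1] at h1
    exact h1
  · intro i x hx
    show ((uni C q₂ (-1) i x)ᴴ * H i x * uni C q₂ (-1) i x).det = 1
    rw [Matrix.det_mul, Matrix.det_mul, Matrix.det_conjTranspose, HT_det, hH.2 i x hx]
    simp
  · intro i x hx
    rw [← HT_A]
    exact HT_nn _ _ _ (hdet i x)

end Pool.Agent.DL
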