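import Pool.Agent.helper67.DL.SpecL

/-! # Project dl, module FC: algebra at the centre -/

namespace Pool.Agent.DL

open Matrix Complex
open scoped ComplexOrder

theorem FC_inv (h : ℝ) (hh : 0 < h) : (diagonal ![(h : ℂ), 1, ((1 / h : ℝ) : ℂ)])⁻¹ =
    diagonal ![((1 / h : ℝ) : ℂ), 1, (h : ℂ)] := by
  apply Matrix.inv_eq_right_inv
  have hne : (h : ℂ) ≠ 0 := by exact_mod_cast hh.ne'
  rw [diagonal_mul_diagonal, ← diagonal_one]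
  congr 1
  funext i
  fin_cases i <;> simp [hne]

theorem FC_nn (h : ℝ) (hh : 0 < h) (p : Matrix (Fin 3) (Fin 3) ℝ) :
    nn (diagonal ![(h : ℂ), 1, ((1 / h : ℝ) : ℂ)]) (p.map (fun x : ℝ => (x : ℂ))) =
      p 0 0 ^ 2 + p 1 1 ^ 2 + p 2 2 ^ 2 + h * (p 0 1 ^ 2 + p 1 2 ^ 2) + h ^ 2 * p 0 2 ^ 2 +
        (p 1 0 ^ 2 + p 2 1 ^ 2) / h + p 2 0 ^ 2 / h ^ 2 := by
  have hne : h ≠ 0 := hh.ne'
  unfold nn nn2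
  rw [FC_inv h hh, Matrix.trace_fin_three]
  have key : ∀ j : Fin 3, ((diagonal ![((1 / h : ℝ) : ℂ), 1, (h : ℂ)]) *
      (p.map (fun x : ℝ => (x : ℂ)))ᴴ * diagonal ![(h : ℂ), 1, ((1 / h : ℝ) : ℂ)] *
      p.map (fun x : ℝ => (x : ℂ))) j j =
      (((![1 / h, 1, h] : Fin 3 → ℝ) j * (p 0 j ^ 2 * h + p 1 j ^ 2 + p 2 j ^ 2 * (1 / h)) : ℝ) : ℂ) := by
    intro j
    rw [Matrix.mul_apply, Fin.sum_univ_three]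
    simp only [Matrix.mul_diagonal, Matrix.diagonal_mul, Matrix.conjTranspose_apply, Matrix.map_apply]
    fin_cases j <;> simp <;> ring
  rw [key 0, key 1, key 2]
  rw [← Complex.ofReal_add, ← Complex.ofReal_add, Complex.ofReal_re]
  simp
  field_simp
  ring

/-- FC -/
theorem FC : FC_stmt := by
  intro t h ht hh
  have ht0 : (t : ℝ) ≠ 0 := by positivity
  have hne : h ≠ 0 := hh.ne'
  have htc : (t : ℂ) ≠ 0 := by exact_mod_cast ht0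
  have eA : AA t 0 = (!![0, t ^ 2 / 2, 0; 1, 0, t ^ 2 / 2; 0, 1, 0] : Matrix (Fin 3) (Fin 3) ℝ).map
      (fun x : ℝ => (x : ℂ)) := by
    ext i j
    fin_cases i <;> fin_cases j <;> simp [AA, ss, qq]
  have eP : PP t 0 = (!![1 / 2, 0, -(t ^ 2 / 4); 0, 0, 0; -(1 / t ^ 2), 0, 1 / 2] :
      Matrix (Fin 3) (Fin 3) ℝ).map (fun x : ℝ => (x : ℂ)) := by
    ext i j
    fin_cases i <;> fin_cases j <;> simp [PP, vecMulVec_apply, ev, cv, ss, qq] <;> field_simp <;> norm_num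
  rw [eA, eP, FC_nn h hh, FC_nn h hh]
  have e1 : (!![1 / 2, 0, -(t ^ 2 / 4); 0, 0, 0; -(1 / t ^ 2), 0, 1 / 2] :
      Matrix (Fin 3) (Fin 3) ℝ) 0 0 ^ 2 + (!![1 / 2, 0, -(t ^ 2 / 4); 0, 0, 0; -(1 / t ^ 2), 0, 1 / 2] :
      Matrix (Fin 3) (Fin 3) ℝ) 1 1 ^ 2 + (!![1 / 2, 0, -(t ^ 2 / 4); 0, 0, 0; -(1 / t ^ 2), 0, 1 / 2] :
      Matrix (Fin 3) (Fin 3) ℝ) 2 2 ^ 2 +
      h * ((!![1 / 2, 0, -(t ^ 2 / 4); 0, 0, 0; -(1 / t ^ 2), 0, 1 / 2] :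
      Matrix (Fin 3) (Fin 3) ℝ) 0 1 ^ 2 + (!![1 / 2, 0, -(t ^ 2 / 4); 0, 0, 0; -(1 / t ^ 2), 0, 1 / 2] :
      Matrix (Fin 3) (Fin 3) ℝ) 1 2 ^ 2) + h ^ 2 * (!![1 / 2, 0, -(t ^ 2 / 4); 0, 0, 0; -(1 / t ^ 2), 0, 1 / 2] :
      Matrix (Fin 3) (Fin 3) ℝ) 0 2 ^ 2 +
        ((!![1 / 2, 0, -(t ^ 2 / 4); 0, 0, 0; -(1 / t ^ 2), 0, 1 / 2] :
      Matrix (Fin 3) (Fin 3) ℝ) 1 0 ^ 2 + (!![1 / 2, 0, -(t ^ 2 / 4); 0, 0, 0; -(1 / t ^ 2), 0, 1 / 2] :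
      Matrix (Fin 3) (Fin 3) ℝ) 2 1 ^ 2) / h + (!![1 / 2, 0, -(t ^ 2 / 4); 0, 0, 0; -(1 / t ^ 2), 0, 1 / 2] :
      Matrix (Fin 3) (Fin 3) ℝ) 2 0 ^ 2 / h ^ 2 = (h * t ^ 2 / 4 + 1 / (t ^ 2 * h)) ^ 2 := by
    simp
    field_simp
    ring
  rw [e1, Real.sqrt_sq (by positivity)]
  simp
  field_simp
  ring

end Pool.Agent.DL
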