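import Pool.Agent.helper67.DL.SpecG

/-! # Project dl, module ND: negative powers of `K` have no sections -/

namespace Pool.Agent.DL

open Matrix Complex
open scoped ComplexOrder Manifold ContDiff

theorem ND_open {X : Type} [TopologicalSpace X] [ChartedSpace ℂ X] {U : Set X} (hU : IsOpen U)
    (e : OpenPartialHomeomorph X ℂ) : IsOpen (e.target ∩ e.symm ⁻¹' U) :=
  e.symm.isOpen_inter_preimage hU

theorem ND_glue {X : Type} [TopologicalSpace X] [ChartedSpace ℂ X] {U V : Set X} {f : X → ℂ}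
    (hU : IsOpen U) (hV : IsOpen V) (hc : ∀ x, x ∈ U ∨ x ∈ V) (h1 : HoloOn f U) (h2 : HoloOn f V) :
    HoloOn f Set.univ := by
  intro e he z hz
  rcases hc (e.symm z) with h | h
  · exact ((h1 e he).differentiableAt ((ND_open hU e).mem_nhds ⟨hz.1, h⟩)).differentiableWithinAt
  · exact ((h2 e he).differentiableAt ((ND_open hV e).mem_nhds ⟨hz.1, h⟩)).differentiableWithinAt

theorem ND_congr {X : Type} [TopologicalSpace X] [ChartedSpace ℂ X] {U : Set X} {f g : X → ℂ}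
    (h : ∀ x ∈ U, f x = g x) (hg : HoloOn g U) : HoloOn f U := by
  intro e he
  exact (hg e he).congr fun z hz => h _ hz.2

/-- ND -/
theorem ND (hHC : HC_stmt) : ND_stmt := by
  classical
  intro X _ _ D hX hD m c0 c1 hm h0 h1 hrel
  set F : X → ℂ := fun x => if x ∈ D.U0 then c0 x else D.ν x ^ (2 * m) * c1 x with hF
  have hF0 : ∀ x ∈ D.U0, F x = c0 x := fun x hx => by
    rw [hF]
    exact if_pos hx
  have hF1 : ∀ x ∈ D.U1, F x = D.ν x ^ (2 * m) * c1 x := fun x hx => by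
    by_cases h : x ∈ D.U0
    · rw [hF0 x h, hrel x ⟨h, hx⟩]
    · rw [hF]
      exact if_neg h
  have hprod : HoloOn (fun x => D.ν x ^ (2 * m) * c1 x) D.U1 := by
    intro e he
    exact ((hD.holo1 e he).pow (2 * m)).mul (h1 e he)
  have hFh : HoloOn F Set.univ :=
    ND_glue hD.open0 hD.open1 hD.cover (ND_congr hF0 h0) (ND_congr hF1 hprod)
  have hx1 : F D.x1 = 0 := by
    rw [hF1 _ hD.x1mem, hD.x1z, zero_pow (by omega), zero_mul]
  have hzero : ∀ x, F x = 0 := fun x => (hHC X hX F hFh x D.x1).trans hx1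
  refine ⟨fun x hx => (hF0 x hx).symm.trans (hzero x), fun x hx => ?_⟩
  by_contra hne
  set e := chartAt ℂ x with he
  have hea : e ∈ atlas ℂ X := chart_mem_atlas ℂ x
  have hxs : x ∈ e.source := mem_chart_source ℂ x
  have hc : ContinuousOn (fun z => c1 (e.symm z)) (e.target ∩ e.symm ⁻¹' D.U1) :=
    (h1 e hea).continuousOn
  have hO : IsOpen ((e.target ∩ e.symm ⁻¹' D.U1) ∩ (fun z => c1 (e.symm z)) ⁻¹' {0}ᶜ) :=
    hc.isOpen_inter_preimage (ND_open hD.open1 e) isOpen_compl_singleton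
  have hW : IsOpen (e.source ∩ e ⁻¹' ((e.target ∩ e.symm ⁻¹' D.U1) ∩
      (fun z => c1 (e.symm z)) ⁻¹' {0}ᶜ)) := e.isOpen_inter_preimage hO
  have hxW : x ∈ e.source ∩ e ⁻¹' ((e.target ∩ e.symm ⁻¹' D.U1) ∩
      (fun z => c1 (e.symm z)) ⁻¹' {0}ᶜ) := by
    refine ⟨hxs, ⟨e.map_source hxs, ?_⟩, ?_⟩
    · show e.symm (e x) ∈ D.U1
      rw [e.left_inv hxs]
      exact hx
    · show c1 (e.symm (e x)) ∈ ({0}ᶜ : Set ℂ)
      rw [e.left_inv hxs]
      exact hne
  obtain ⟨y, hyW, hy0⟩ := hD.dense0.inter_open_nonempty _ hW ⟨x, hxW⟩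
  obtain ⟨hys, ⟨-, hy1⟩, hy2⟩ := hyW
  have hy1' : y ∈ D.U1 := by
    have : e.symm (e y) ∈ D.U1 := hy1
    rwa [e.left_inv hys] at this
  have hy2' : c1 y ≠ 0 := by
    have : c1 (e.symm (e y)) ∈ ({0}ᶜ : Set ℂ) := hy2
    rw [e.left_inv hys] at this
    exact this
  have h3 := hzero y
  rw [hF1 y hy1'] at h3
  have hν : D.ν y ≠ 0 := by
    intro h
    have := hD.mul y ⟨hy0, hy1'⟩
    rw [h, mul_zero] at this
    exact zero_ne_one this
  exact (mul_ne_zero (pow_ne_zero _ hν) hy2') h3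

end Pool.Agent.DL
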